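import Pool.Agent.P.MP_d9fc2a_co.Defs
import Pool.Agent.P.MP_d9fc2a_co.Main

open Pool.Agent.P.MP_d9fc2a_co

/-- The maximal number of three-leaf gluing trees of a simple `n`-gon has order `n ^ 3`. -/
theorem Pool.Agent.Results.MP_d9fc2a_co.Cubic.result (n : ℕ) (hn : 18 ≤ n) :
    (n : ℕ∞) ^ 3 ≤ 64 * maxY n ∧ maxY n ≤ 831 * (n : ℕ∞) ^ 3 :=
  maxY_theta n hn
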